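import Pool.Agent.H.MP_d4104f_co.F

/-! The least Hadwiger number of a graph with automorphism group `A_n` lies between
`n / (2000 log n)` and `n + 2`. -/

namespace Pool.Agent.Results.MP_d4104f_co.Alt
open Pool.Agent.H.MP_d4104f_co

/-- `X` has a subcontraction to `K_k`: there are `k` pairwise disjoint vertex sets, each inducing
a connected (nonempty) subgraph, any two of them joined by an edge. -/
def HasClique {V : Type} (X : SimpleGraph V) (k : ℕ) : Prop :=
  ∃ B : Fin k → Set V, (∀ i, (X.induce (B i)).Connected) ∧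
    ∀ i j, i ≠ j → Disjoint (B i) (B j) ∧ ∃ a ∈ B i, ∃ b ∈ B j, X.Adj a b

/-- The Hadwiger number. -/
noncomputable def hadwiger {V : Type} (X : SimpleGraph V) : ℕ := sSup {k | HasClique X k}

/-- The least Hadwiger number of a finite graph whose automorphism group is isomorphic to `G`. -/
noncomputable def m (G : Type) [Group G] : ℕ :=
  sInf {h | ∃ (V : Type) (_ : Finite V) (X : SimpleGraph V),
    Nonempty ((X ≃g X) ≃* G) ∧ h = hadwiger X}

lemma hc {V : Type} (X : SimpleGraph V) (k : ℕ) : HasClique X k ↔ KM X.Adj (Fin k) := by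
  simp only [HasClique, KM, cn_iff]

theorem result (n : ℕ) (h : 10000 ≤ n) :
    n / (2000 * Real.log n) ≤ m (alternatingGroup (Fin n)) ∧
      m (alternatingGroup (Fin n)) ≤ n + 2 := by
  have c : 4 ≤ Nat.card (alternatingGroup (Fin n)) := by
    have : Nontrivial (Fin n) := Fin.nontrivial_iff_two_le.mpr (by omega)
    have := two_mul_nat_card_alternatingGroup (α := Fin n)
    rw [Nat.card_perm, Nat.card_fin] at this
    have := Nat.self_le_factorial n
    omega
  have k : hadwiger (gr (alternatingGroup (Fin n)) (Equiv.refl (Fin n))) ∈ {h | ∃ (V : Type)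
      (_ : Finite V) (X : SimpleGraph V), Nonempty ((X ≃g X) ≃* alternatingGroup (Fin n)) ∧
      h = hadwiger X} := ⟨_, inferInstance, _, gr_aut c _, rfl⟩
  constructor
  · obtain ⟨V, _, X, ⟨e⟩, k⟩ := Nat.sInf_mem ⟨_, k⟩
    obtain ⟨t, t1, t2⟩ := alt h X e
    rw [m, k]
    exact t1.trans (Nat.cast_le.mpr
      (le_csSup ⟨Nat.card V, fun k hk => km_le ((hc X k).mp hk)⟩ ((hc X t).mpr t2)))
  · exact (Nat.sInf_le k).trans (csSup_le' fun k hk => by simpa using gr_km _ ((hc _ k).mp hk))

end Pool.Agent.Results.MP_d4104f_co.Alt
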