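import Pool.Agent.H.MP_d4104f_co.E

/-! The least Hadwiger number of a graph with automorphism group `PSL(2,p)` is at most `p + 3`. -/

namespace Pool.Agent.Results.MP_d4104f_co.PSLUpper
open Pool.Agent.H.MP_d4104f_co
open scoped LinearAlgebra.Projectivization

/-- `X` has a subcontraction to `K_k`: there are `k` pairwise disjoint vertex sets, each inducing
a connected (nonempty) subgraph, any two of them joined by an edge. -/
def HasClique {V : Type} (X : SimpleGraph V) (k : ℕ) : Prop :=
  ∃ B : Fin k → Set V, (∀ i, (X.induce (B i)).Connected) ∧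
    ∀ i j, i ≠ j → Disjoint (B i) (B j) ∧ ∃ a ∈ B i, ∃ b ∈ B j, X.Adj a b

/-- The Hadwiger number. -/
noncomputable def hadwiger {V : Type} (X : SimpleGraph V) : ℕ := sSup {k | HasClique X k}

/-- The least Hadwiger number of a finite graph whose automorphism group is isomorphic to `G`. -/
noncomputable def m (G : Type) [Group G] : ℕ :=
  sInf {h | ∃ (V : Type) (_ : Finite V) (X : SimpleGraph V),
    Nonempty ((X ≃g X) ≃* G) ∧ h = hadwiger X}

lemma hc {V : Type} (X : SimpleGraph V) (k : ℕ) : HasClique X k ↔ KM X.Adj (Fin k) := by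
  simp only [HasClique, KM, cn_iff]

theorem result (p : ℕ) [Fact p.Prime] (h : 3 ≤ p) :
    m (Matrix.ProjectiveSpecialLinearGroup (Fin 2) (ZMod p)) ≤ p + 3 := by
  have f : Finite (ℙ (ZMod p) (Fin 2 → ZMod p)) :=
    (Projectivization.finite_iff_of_finite _ _).mpr inferInstance
  have c1 : Nat.card (ℙ (ZMod p) (Fin 2 → ZMod p)) = p + 1 := by
    simpa using Projectivization.card_of_finrank_two (ZMod p) (Fin 2 → ZMod p) (by simp)
  have c : 4 ≤ Nat.card (Matrix.ProjectiveSpecialLinearGroup (Fin 2) (ZMod p)) := by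
    obtain ⟨x⟩ := (Nat.card_pos_iff.mp (c1.symm ▸ Nat.succ_pos p :
      0 < Nat.card (ℙ (ZMod p) (Fin 2 → ZMod p)))).1
    have := Nat.card_le_card_of_surjective (fun g => g • x) (MulAction.exists_smul_eq
      (Matrix.ProjectiveSpecialLinearGroup (Fin 2) (ZMod p)) x)
    omega
  let e := (Finite.equivFinOfCardEq c1).symm
  have k : m _ ≤ hadwiger (gr _ e) := Nat.sInf_le ⟨_, inferInstance, _, gr_aut c e, rfl⟩
  exact k.trans (csSup_le' fun k hk => by simpa only [c1] using gr_km _ ((hc _ k).mp hk))

end Pool.Agent.Results.MP_d4104f_co.PSLUpper
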